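import Mathlib

namespace Pool.Agent.H.MP_80693f_an

open Set MeasureTheory Measure Cardinal
open scoped ENNReal

theorem free {I : Type} (S : I → Set I) (hS : ∀ a, (S a).Countable) (n : ℕ) :
    ∀ Y : Set I, continuum < #Y → ∃ F : Finset I, (F : Set I) ⊆ Y ∧ F.card = n ∧
      ∀ a ∈ F, ∀ b ∈ F, a ≠ b → a ∉ S b := by
  classical
  induction n with
  | zero => exact fun Y _ => ⟨∅, by simp, rfl, by simp⟩
  | succ n ih =>
    intro Y hY
    obtain ⟨Z, hZ, hc⟩ := le_mk_iff_exists_subset.1 hY.le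
    have h1 : ∀ y : Y, ∃ z : Z, z.1 ∉ S y := fun y => by
      by_contra h
      push Not at h
      have := le_aleph0_iff_set_countable.2 ((hS y).mono fun z hz => h ⟨z, hz⟩ : Z.Countable)
      exact absurd (hc ▸ this) (not_le.2 aleph0_lt_continuum)
    choose f hf using h1
    obtain ⟨a, ha⟩ := infinite_pigeonhole_card_lt f (hc ▸ hY) (aleph0_le_continuum.trans hY.le)
    rw [hc, ← mk_image_eq (Subtype.val_injective)] at ha
    obtain ⟨F, h1, h2, h3⟩ := ih ((Subtype.val '' (f ⁻¹' {a})) \ insert a.1 (S a)) (by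
      by_contra h
      have h4 : #(insert a.1 (S a) : Set I) ≤ continuum :=
        (le_aleph0_iff_set_countable.2 ((hS a).insert _)).trans aleph0_le_continuum
      have := (mk_le_mk_of_subset (subset_sdiff_union (Subtype.val '' (f ⁻¹' {a}))
        (insert a.1 (S a)))).trans (mk_union_le _ _)
      have h5 := this.trans (add_le_add (not_lt.1 h) h4)
      rw [continuum_add_self] at h5
      exact absurd h5 (not_le.2 ha))
    have h4 : a.1 ∉ F := fun h => (h1 h).2 (mem_insert _ _)
    have h5 : ∀ b ∈ F, a.1 ∉ S b := fun b hb => by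
      obtain ⟨y, hy, rfl⟩ := (h1 hb).1
      exact (show f y = a from hy) ▸ hf y
    refine ⟨insert a.1 F, ?_, by rw [Finset.card_insert_of_notMem h4, h2], ?_⟩
    · rw [Finset.coe_insert]
      refine insert_subset (hZ a.2) fun b hb => ?_
      obtain ⟨y, -, rfl⟩ := (h1 hb).1
      exact y.2
    · intro b hb c hc' hne
      rcases Finset.mem_insert.1 hb with rfl | hb <;> rcases Finset.mem_insert.1 hc' with rfl | hc'
      · exact absurd rfl hne
      · exact h5 c hc'
      · exact fun h => (h1 hb).2 (mem_insert_of_mem _ h)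
      · exact h3 b hb c hc' hne

section gen
variable {X ι : Type} (R : Set ι → X → X → Prop) (hR : ∀ N N', N ⊆ N' → ∀ x y, R N' x y → R N x y)

@[reducible] def ms : MeasurableSpace X where
  MeasurableSet' A := ∃ N : Set ι, N.Countable ∧ ∀ x y, R N x y → (x ∈ A ↔ y ∈ A)
  measurableSet_empty := ⟨∅, countable_empty, by simp⟩
  measurableSet_compl := fun _ ⟨N, h1, h2⟩ => ⟨N, h1, fun x y h => (h2 x y h).not⟩
  measurableSet_iUnion := fun A h => by
    choose N h1 h2 using h
    refine ⟨⋃ i, N i, countable_iUnion h1, fun x y hxy => ?_⟩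
    simp only [mem_iUnion]
    exact exists_congr fun i => h2 i x y (hR _ _ (subset_iUnion N i) x y hxy)

theorem meas_iff (f : X → ℝ) : Measurable[ms R hR] f ↔
    ∃ N : Set ι, N.Countable ∧ ∀ x y, R N x y → f x = f y := by
  refine ⟨fun h => ?_, fun ⟨N, h1, h2⟩ A _ => ⟨N, h1, fun x y h => by simp [h2 x y h]⟩⟩
  choose N h1 h2 using fun q : ℚ => h (measurableSet_Iio (a := (q : ℝ)))
  refine ⟨⋃ i, N i, countable_iUnion h1, fun x y hxy => ?_⟩
  have h3 : ∀ q : ℚ, f x < q ↔ f y < q := fun q => h2 q x y (hR _ _ (subset_iUnion N q) x y hxy)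
  by_contra hne
  rcases lt_or_gt_of_ne hne with h | h
  · obtain ⟨q, a, b⟩ := exists_rat_btwn h
    linarith [(h3 q).1 a]
  · obtain ⟨q, a, b⟩ := exists_rat_btwn h
    linarith [(h3 q).2 a]

variable [MeasurableSpace X]

noncomputable abbrev L (X : Type) [MeasurableSpace X] := Lp ℝ ∞ (count : Measure X)

theorem le_n (F : L X) (x : X) : |F x| ≤ ‖F‖ := by
  have := ae_count_iff.1 (ae_le_eLpNormEssSup (f := F) (μ := count)) x
  rw [Lp.norm_def, ← Real.norm_eq_abs, ← toReal_enorm]
  exact ENNReal.toReal_mono (Lp.eLpNorm_ne_top F) (by rwa [eLpNorm_exponent_top])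

theorem n_le (F : L X) {C : ℝ} (h0 : 0 ≤ C) (h : ∀ x, |F x| ≤ C) : ‖F‖ ≤ C := by
  rw [Lp.norm_def, eLpNorm_exponent_top]
  exact ENNReal.toReal_le_of_le_ofReal h0 (eLpNormEssSup_le_of_ae_bound (ae_of_all _ h))

noncomputable def mk (g : X → ℝ) (hg : Measurable g) (C : ℝ) (h : ∀ x, |g x| ≤ C) : L X :=
  (memLp_top_of_bound hg.aestronglyMeasurable C (ae_of_all _ h)).toLp g

theorem mk_coe (g : X → ℝ) (hg : Measurable g) (C : ℝ) (h : ∀ x, |g x| ≤ C) :
    ⇑(mk g hg C h) = g := funext (ae_count_iff.1 (MemLp.coeFn_toLp _))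

noncomputable def co : L X →ₗ[ℝ] X → ℝ where
  toFun F := F
  map_add' F G := funext (ae_count_iff.1 (Lp.coeFn_add F G))
  map_smul' c F := funext (ae_count_iff.1 (Lp.coeFn_smul c F))

theorem kill {E : Type} [NormedAddCommGroup E] [NormedSpace ℝ E] (V : E →L[ℝ] L X)
    (hV : ∀ x, ‖V x‖ = ‖x‖) {f g : E} (h1 : ‖f + g‖ ≤ 1) (h2 : ‖f - g‖ ≤ 1) {s : X}
    (h : |co (V f) s| = 1) : co (V g) s = 0 := by
  have a : |co (V (f + g)) s| ≤ 1 := (le_n _ s).trans ((hV _).le.trans h1)
  have b : |co (V (f - g)) s| ≤ 1 := (le_n _ s).trans ((hV _).le.trans h2)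
  rw [map_add, map_add, Pi.add_apply, abs_le] at a
  rw [map_sub, map_sub, Pi.sub_apply, abs_le] at b
  rcases (abs_eq zero_le_one).1 h with h | h <;> linarith [a.1, a.2, b.1, b.2]

end gen

abbrev G := Option (Set ℝ × ℝ)

def col (x : G) : Option (Set ℝ) := Option.map Prod.fst x

def R1 (N : Set (Set ℝ × ℝ)) (x y : G) : Prop := (∀ p ∈ N, x ≠ some p ∧ y ≠ some p) ∧
  (col x = col y ∨ ∀ p ∈ N, col x ≠ some p.1 ∧ col y ≠ some p.1)

theorem hR1 : ∀ N N', N ⊆ N' → ∀ x y, R1 N' x y → R1 N x y := fun _ _ h _ _ hh =>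
  ⟨fun p hp => hh.1 p (h hp), hh.2.imp id fun k p hp => k p (h hp)⟩

instance : MeasurableSpace G := ms R1 hR1

noncomputable def y (n : ℕ) : ℝ := 1 / (n + 2)

open Classical in
noncomputable def ind (p : Set ℝ × ℝ) (x : G) : ℝ := if x = some p then 1 else 0

open Classical in
noncomputable def cind (a : Set ℝ) (x : G) : ℝ := if col x = some a then 1 else 0

abbrev d (x : G) : (G → ℝ) →ₗ[ℝ] ℝ := LinearMap.proj x

def P := {s : ℕ × ((G → ℝ) →ₗ[ℝ] ℝ) // (∀ g, 0 ≤ g → 0 ≤ s.2 g) ∧ s.2 1 = 1 + y s.1 ∧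
  ((∃ r, s.2 = d r + y s.1 • d none) ∨ ∀ p, s.2 (ind p) ≤ 1 / 2)}

def R2 (N : Set (Set ℝ × ℝ)) (s t : P) : Prop := s.1.1 = t.1.1 ∧
  ∀ g : G → ℝ, (∀ x z, R1 N x z → g x = g z) → s.1.2 g = t.1.2 g

theorem hR2 : ∀ N N', N ⊆ N' → ∀ x y, R2 N' x y → R2 N x y := fun _ _ h _ _ hh =>
  ⟨hh.1, fun g hg => hh.2 g fun x z k => hg x z (hR1 _ _ h x z k)⟩

instance : MeasurableSpace P := ms R2 hR2

theorem y_pos (n : ℕ) : 0 < y n := by unfold y; positivity

theorem y_le (n : ℕ) : y n ≤ 1 / 2 :=
  one_div_le_one_div_of_le two_pos (by linarith [Nat.cast_nonneg (α := ℝ) n])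

theorem bd (n : ℕ) (f : L G) (s : P) :
    |if s.1.1 = n then s.1.2 (co f) else 0| ≤ (1 + y n) * ‖f‖ := by
  split_ifs with h
  · have h0 : ∀ x, |co f x| ≤ ‖f‖ := le_n f
    have h1 := s.2.1 (‖f‖ • 1 - co f) fun x => by simpa using (abs_le.1 (h0 x)).2
    have h2 := s.2.1 (‖f‖ • 1 + co f) fun x => by
      simpa [← neg_le_iff_add_nonneg'] using (abs_le.1 (h0 x)).1
    rw [map_sub, map_smul, s.2.2.1, h, smul_eq_mul] at h1
    rw [map_add, map_smul, s.2.2.1, h, smul_eq_mul] at h2
    rw [abs_le]; constructor <;> linarith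
  · have := y_pos n
    simp only [abs_zero]; positivity

theorem me (n : ℕ) (f : L G) : Measurable fun s : P => if s.1.1 = n then s.1.2 (co f) else 0 := by
  obtain ⟨N, h1, h2⟩ := (meas_iff R1 hR1 f).1 (Lp.stronglyMeasurable f).measurable
  exact (meas_iff R2 hR2 _).2 ⟨N, h1, fun s t h => by rw [h.1, h.2 (co f) h2]⟩

noncomputable def T0 (n : ℕ) (f : L G) : L P := mk _ (me n f) _ (bd n f)

theorem T0_ap (n : ℕ) (f : L G) (s : P) :
    co (T0 n f) s = if s.1.1 = n then s.1.2 (co f) else 0 :=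
  congrFun (mk_coe _ (me n f) _ (bd n f)) s

noncomputable def T (n : ℕ) : L G →L[ℝ] L P := LinearMap.mkContinuous
  { toFun := T0 n
    map_add' := fun f g => Lp.ext (ae_of_all _ fun s => by
      change co _ s = co (_ + _) s
      rw [map_add co (T0 n f), Pi.add_apply, T0_ap, T0_ap, T0_ap]
      split_ifs <;> simp)
    map_smul' := fun c f => Lp.ext (ae_of_all _ fun s => by
      change co _ s = co (c • _) s
      rw [map_smul co c (T0 n f), Pi.smul_apply, T0_ap, T0_ap]
      split_ifs <;> simp) } (1 + y n) fun f => n_le _ (by have := y_pos n; positivity) fun s => by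
    change |co (T0 n f) s| ≤ _
    rw [T0_ap]
    exact bd n f s

theorem T_ap (n : ℕ) (f : L G) (s : P) :
    co (T n f) s = if s.1.1 = n then s.1.2 (co f) else 0 := T0_ap n f s

noncomputable def K1 (n : ℕ) (r : G) : P := ⟨(n, d r + y n • d none),
  fun g hg => add_nonneg (hg r) (mul_nonneg (y_pos n).le (hg none)), by simp, Or.inl ⟨r, rfl⟩⟩

noncomputable def e (p : Set ℝ × ℝ) : L G := mk (ind p)
  ((meas_iff R1 hR1 _).2 ⟨{p}, countable_singleton _, fun x z h => by
    simp [ind, (h.1 p rfl).1, (h.1 p rfl).2]⟩) 1 fun x => by unfold ind; split_ifs <;> simp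

noncomputable def c (a : Set ℝ) : L G := mk (cind a)
  ((meas_iff R1 hR1 _).2 ⟨{(a, 0)}, countable_singleton _, fun x z h => by
    rcases h.2 with k | k
    · simp only [cind, k]
    · simp [cind, (k _ rfl).1, (k _ rfl).2]⟩) 1 fun x => by unfold cind; split_ifs <;> simp

theorem e_co (p) : co (e p) = ind p := mk_coe _ _ _ _

theorem c_co (a) : co (c a) = cind a := mk_coe _ _ _ _

theorem far (n : ℕ) (V : L G →L[ℝ] L P) (hV : ∀ x, ‖V x‖ = ‖x‖) : 1 / 3 ≤ ‖T n - V‖ := by
  classical
  by_contra hlt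
  have y0 := y_pos n
  have y1 := y_le n
  have hd : ∀ f : L G, ‖f‖ ≤ 1 → ∀ s, |co (T n f) s - co (V f) s| ≤ 1 / 3 := fun f hf s => by
    have := (le_n ((T n - V) f) s).trans (((T n - V).le_opNorm f).trans
      (mul_le_mul (not_le.1 hlt).le hf (norm_nonneg _) (by norm_num)))
    change |co ((T n - V) f) s| ≤ _ at this
    rwa [_root_.sub_apply, map_sub, mul_one] at this
  have n1 : ∀ f : L G, (∀ x, |co f x| ≤ 1) → ‖f‖ ≤ 1 := fun f h => n_le f zero_le_one h
  have he : ∀ p, ‖e p‖ = 1 := fun p => le_antisymm (n1 _ fun x => by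
    rw [e_co]; unfold ind; split_ifs <;> simp) (by
      have : |co (e p) (some p)| ≤ _ := le_n (e p) (some p)
      simpa [e_co, ind] using this)
  have ha : ∀ p, |co (V (e p)) (K1 n (some p))| = 1 := by
    intro p
    refine le_antisymm ((le_n _ _).trans (by rw [hV, he])) (not_lt.1 fun h => ?_)
    have := n_le (V (e p)) (C := max |co (V (e p)) (K1 n (some p))| (5 / 6)) (by positivity)
      fun s => by
        by_cases hs : s = K1 n (some p)
        · rw [hs]; exact le_max_left _ _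
        refine le_trans ?_ (le_max_right _ _)
        have h1 := abs_le.1 (hd _ (he p).le s)
        have h2 : 0 ≤ co (T n (e p)) s ∧ co (T n (e p)) s ≤ 1 / 2 := by
          rw [T_ap, e_co]
          split_ifs with hn
          · refine ⟨s.2.1 _ fun x => by unfold ind; split_ifs <;> simp, ?_⟩
            rcases s.2.2.2 with ⟨r, hr⟩ | k
            · have : r ≠ some p := fun k => hs (Subtype.ext (Prod.ext hn (by rw [hr, k, hn]; rfl)))
              simp [hr, ind, this]
            · exact k p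
          · norm_num
        change |co (V (e p)) s| ≤ _
        rw [abs_le]; constructor <;> linarith [h1.1, h1.2, h2.1, h2.2]
    rw [hV, he] at this
    exact absurd this (not_le.2 (max_lt h (by norm_num)))
  have hb : ∀ a j, |co (V (c a)) (K1 n (some (a, j)))| = 1 := by
    intro a j
    have := kill V hV (f := e (a, j)) (g := c a - e (a, j)) (n1 _ fun x => by
      rw [add_sub_cancel, c_co]; unfold cind; split_ifs <;> simp) (n1 _ fun x => by
      simp only [map_sub, e_co, c_co, Pi.sub_apply, ind, cind]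
      by_cases h : x = some (a, j)
      · simp [h, col]
      · rw [if_neg h]; split_ifs <;> simp) (ha _)
    rw [map_sub, map_sub, Pi.sub_apply, sub_eq_zero] at this
    rw [this, ha]
  choose Nc c1 c2 using fun a =>
    (meas_iff R2 hR2 (V (c a))).1 (Lp.stronglyMeasurable _).measurable
  choose Ne e1 e2 using fun a : Set ℝ =>
    (meas_iff R2 hR2 (V (e (a, 0)))).1 (Lp.stronglyMeasurable _).measurable
  obtain ⟨F, -, hF, hfree⟩ := free (fun a => Prod.fst '' (Nc a ∪ Ne a))
    (fun a => ((c1 a).union (e1 a)).image _) (n + 4) univ (by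
      rw [mk_univ, mk_set, mk_real]; exact cantor _)
  obtain ⟨b, hb'⟩ := Finset.card_pos.1 (by omega : 0 < F.card)
  obtain ⟨j, hj, j', hj', hjj⟩ := Set.Infinite.nontrivial (s := (Prod.snd '' Nc b)ᶜ) fun hf =>
    not_countable_real (by simpa using ((c1 b).image Prod.snd).union hf.countable)
  have hcard : (F.erase b).card = n + 3 := by rw [Finset.card_erase_of_mem hb', hF]; rfl
  let m : P := ⟨(n, y n • ∑ a ∈ F.erase b, d (some (a, 0))), fun g hg => by
      simp only [LinearMap.smul_apply, LinearMap.sum_apply]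
      exact mul_nonneg y0.le (Finset.sum_nonneg fun a _ => hg _), by
      simp only [LinearMap.smul_apply, LinearMap.sum_apply, LinearMap.proj_apply, Pi.one_apply,
        Finset.sum_const, hcard, y]
      simp only [nsmul_eq_mul, smul_eq_mul]; push_cast; field_simp; ring, Or.inr fun p => by
      simp only [LinearMap.smul_apply, LinearMap.sum_apply, LinearMap.proj_apply, smul_eq_mul]
      refine (mul_le_mul_of_nonneg_left (?_ : _ ≤ (1 : ℝ)) y0.le).trans (by linarith)
      refine (Finset.sum_le_sum (g := fun a => if a = p.1 then 1 else 0) fun a _ => ?_).trans ?_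
      · by_cases h : a = p.1
        · rw [if_pos h]; unfold ind; split_ifs <;> simp
        · rw [if_neg h, ind, if_neg fun k => h (congrArg Prod.fst (Option.some.inj k))]
      · rw [Finset.sum_ite_eq']; split_ifs <;> simp⟩
  have hz : ∀ a ∈ F.erase b, co (V (e (a, 0))) m = 0 := by
    intro a ha'
    obtain ⟨hab, haF⟩ := Finset.mem_erase.1 ha'
    let k : P := ⟨(n, (1 / 2 : ℝ) • d (some (b, j)) + (1 / 2 : ℝ) • d (some (b, j'))
      + y n • d (some (a, 0))), fun g hg => by
        have := hg (some (b, j))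
        have := hg (some (b, j'))
        have := hg (some (a, 0))
        simp only [LinearMap.add_apply, LinearMap.smul_apply, LinearMap.proj_apply, smul_eq_mul,
          Pi.zero_apply] at *
        positivity, by simp; norm_num, Or.inr fun p => by
        simp only [LinearMap.add_apply, LinearMap.smul_apply, LinearMap.proj_apply, smul_eq_mul,
          ind]
        split_ifs with h1 h2 h3 h4 h5 h6 h7
        any_goals linarith
        all_goals exfalso
        any_goals exact hjj (congrArg Prod.snd (Option.some.inj (h1.trans h2.symm)))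
        · exact hab (congrArg Prod.fst (Option.some.inj (h4.trans h1.symm)))
        · exact hab (congrArg Prod.fst (Option.some.inj (h6.trans h5.symm)))⟩
    have out : ∀ {N : Set (Set ℝ × ℝ)} (u : Set ℝ) (v : ℝ), u ∉ Prod.fst '' N →
        R1 N (some (u, v)) none := fun u v h =>
      ⟨fun p hp => ⟨fun q => h ⟨p, hp, (congrArg Prod.fst (Option.some.inj q)).symm⟩, by simp⟩,
        Or.inr fun p hp => ⟨fun q => h ⟨p, hp, (Option.some.inj q).symm⟩, by simp [col]⟩⟩
    have k1 : co (V (c b)) (K1 n (some (b, j))) = co (V (c b)) k := c2 b _ _ ⟨rfl, fun g hg => by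
      have q1 := hg (some (b, j)) (some (b, j')) ⟨fun p hp =>
        ⟨fun q => hj ⟨p, hp, (congrArg Prod.snd (Option.some.inj q)).symm⟩,
          fun q => hj' ⟨p, hp, (congrArg Prod.snd (Option.some.inj q)).symm⟩⟩, Or.inl rfl⟩
      have q2 := hg _ _ (out a 0 fun h => hfree a haF b hb' hab (image_mono subset_union_left h))
      simp only [K1, k, LinearMap.add_apply, LinearMap.smul_apply, LinearMap.proj_apply,
        smul_eq_mul, ← q1, q2]
      ring⟩
    have hn : ∀ x, ind (a, 0) x = 0 ∨ cind b x = 0 := fun x => by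
      by_cases h : x = some (a, 0)
      · right; simp [h, cind, col, hab]
      · left; simp [ind, h]
    have k2 := kill V hV (f := c b) (g := e (a, 0)) (s := k) (n1 _ fun x => by
      simp only [map_add, e_co, c_co, Pi.add_apply]
      rcases hn x with h | h <;> rw [h] <;> simp only [ind, cind] <;> split_ifs <;> simp)
      (n1 _ fun x => by
        simp only [map_sub, e_co, c_co, Pi.sub_apply]
        rcases hn x with h | h <;> rw [h] <;> simp only [ind, cind] <;> split_ifs <;> simp)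
      (by rw [← k1, hb])
    refine Eq.trans (e2 a m k ⟨rfl, fun g hg => ?_⟩) k2
    have q : ∀ u ∈ F, u ≠ a → ∀ v, g (some (u, v)) = g none := fun u hu hua v =>
      hg _ _ (out u v fun h => hfree u hu a haF hua (image_mono subset_union_right h))
    simp only [m, k, LinearMap.add_apply, LinearMap.smul_apply, LinearMap.proj_apply,
      smul_eq_mul, LinearMap.sum_apply, q b hb' hab.symm]
    rw [← Finset.add_sum_erase _ _ ha', Finset.sum_congr rfl fun u hu => q u
      (Finset.mem_of_mem_erase (Finset.mem_of_mem_erase hu)) (Finset.ne_of_mem_erase hu) 0,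
      Finset.sum_const, Finset.card_erase_of_mem ha', hcard]
    simp only [y, nsmul_eq_mul, show n + 3 - 1 = n + 2 from rfl]
    push_cast; field_simp; ring
  have hs : ∀ x, co (∑ a ∈ F.erase b, e (a, 0)) x = ∑ a ∈ F.erase b, ind (a, 0) x := fun x => by
    simp only [_root_.map_sum, Finset.sum_apply, e_co]
  have hs1 : ∀ a ∈ F.erase b, co (∑ a ∈ F.erase b, e (a, 0)) (some (a, 0)) = 1 := fun a h => by
    rw [hs]
    exact (Finset.sum_eq_single a (fun u _ hu => if_neg fun k =>
      hu (congrArg Prod.fst (Option.some.inj k)).symm) fun k => absurd h k).trans (if_pos rfl)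
  have := hd (∑ a ∈ F.erase b, e (a, 0)) (n1 _ fun x => by
    by_cases h : ∃ a ∈ F.erase b, x = some (a, 0)
    · obtain ⟨a, h1, rfl⟩ := h
      rw [hs1 a h1, abs_one]
    · have : ∑ a ∈ F.erase b, ind (a, 0) x = 0 :=
        Finset.sum_eq_zero fun a h1 => if_neg fun k => h ⟨a, h1, k⟩
      rw [hs, this]; simp) m
  have hz' : co (V (∑ a ∈ F.erase b, e (a, 0))) m = 0 := by
    rw [_root_.map_sum V, _root_.map_sum, Finset.sum_apply, Finset.sum_eq_zero hz]
  rw [T_ap, if_pos (show m.1.1 = n from rfl), hz'] at this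
  simp only [m, LinearMap.smul_apply, LinearMap.sum_apply, LinearMap.proj_apply] at this
  rw [Finset.sum_congr rfl hs1, Finset.sum_const, hcard] at this
  have e3 : y n • (n + 3) • (1 : ℝ) = 1 + y n := by
    simp only [y, nsmul_eq_mul, smul_eq_mul]; push_cast; field_simp; ring
  rw [e3, sub_zero, abs_of_pos (by linarith)] at this
  linarith

theorem main : ∃ (Ω₁ Ω₂ : Type) (_ : MeasurableSpace Ω₁) (_ : MeasurableSpace Ω₂)
    (μ₁ : Measure Ω₁) (μ₂ : Measure Ω₂), ∀ ε : ℝ, 0 < ε →
      ∃ T : Lp ℝ ∞ μ₁ →L[ℝ] Lp ℝ ∞ μ₂, (∀ x, 0 ≤ x → 0 ≤ T x) ∧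
        (∀ x, (1 - ε) * ‖x‖ ≤ ‖T x‖ ∧ ‖T x‖ ≤ (1 + ε) * ‖x‖) ∧
        ∀ V : Lp ℝ ∞ μ₁ →L[ℝ] Lp ℝ ∞ μ₂, (∀ x, ‖V x‖ = ‖x‖) → 1 / 3 ≤ ‖T - V‖ := by
  refine ⟨G, P, inferInstance, inferInstance, count, count, fun ε hε => ?_⟩
  obtain ⟨n, hn⟩ := exists_nat_one_div_lt hε
  have h1 : y n ≤ ε := (one_div_le_one_div_of_le (by positivity) (by linarith)).trans hn.le
  have y0 := y_pos n
  refine ⟨T n, fun x hx => ?_, fun x => ⟨?_, ?_⟩, far n⟩
  · refine (Lp.coeFn_nonneg _).1 (ae_of_all _ fun s => ?_)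
    change 0 ≤ co (T n x) s
    rw [T_ap]
    split_ifs
    · exact s.2.1 _ (ae_count_iff.1 ((Lp.coeFn_nonneg _).2 hx))
    · rfl
  · have := n_le x (C := ‖T n x‖ + ε * ‖x‖) (by positivity) fun r => by
      have h2 : |co (T n x) (K1 n r)| ≤ _ := le_n _ _
      have h3 : |co x none| ≤ _ := le_n x none
      rw [T_ap, if_pos (show (K1 n r).1.1 = n from rfl)] at h2
      change |co x r + y n * co x none| ≤ _ at h2
      have h4 := mul_le_mul h1 h3 (abs_nonneg _) hε.le
      rw [← abs_of_pos y0, ← abs_mul] at h4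
      change |co x r| ≤ _
      rw [abs_le] at h2 h4 ⊢
      constructor <;> linarith [h2.1, h2.2, h4.1, h4.2]
    linarith
  · refine n_le _ (by positivity) fun s => ?_
    change |co (T n x) s| ≤ _
    rw [T_ap]
    exact (bd n x s).trans (by gcongr)

end Pool.Agent.H.MP_80693f_an
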